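import Mathlib

open Finset Equiv

namespace H628HHH

/-- seven vectors in `ℤ^4` -/
def av : Fin 7 → Fin 4 → ℤ :=
  ![![1,0,0,0], ![0,1,0,0], ![0,0,1,0], ![0,0,0,1], ![0,0,1,-1], ![1,1,0,-1], ![1,-1,1,-1]]

/-- the base block `{2, 4, 5, 6}` modulo `7` (complement of a line of the Fano plane) -/
def sh : Fin 4 → Fin 7 := ![2, 4, 5, 6]

def m2 (a b c d : ℤ) : ℤ := a * d - b * c

def an (i k : ℕ) : ℤ :=
  match i, k with
  | 0, 0 => 1
  | 1, 1 => 1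
  | 2, 2 => 1
  | 3, 3 => 1
  | 4, 2 => 1
  | 4, 3 => -1
  | 5, 0 => 1
  | 5, 1 => 1
  | 5, 3 => -1
  | 6, 0 => 1
  | 6, 1 => -1
  | 6, 2 => 1
  | 6, 3 => -1
  | _, _ => 0

def dn (i j k l : ℕ) : ℤ :=
  m2 (an i 0) (an i 1) (an j 0) (an j 1) * m2 (an k 2) (an k 3) (an l 2) (an l 3)
  - m2 (an i 0) (an i 2) (an j 0) (an j 2) * m2 (an k 1) (an k 3) (an l 1) (an l 3)
  + m2 (an i 0) (an i 3) (an j 0) (an j 3) * m2 (an k 1) (an k 2) (an l 1) (an l 2)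
  + m2 (an i 1) (an i 2) (an j 1) (an j 2) * m2 (an k 0) (an k 3) (an l 0) (an l 3)
  - m2 (an i 1) (an i 3) (an j 1) (an j 3) * m2 (an k 0) (an k 2) (an l 0) (an l 2)
  + m2 (an i 2) (an i 3) (an j 2) (an j 3) * m2 (an k 0) (an k 1) (an l 0) (an l 1)

def s7 (f : ℕ → ℤ) : ℤ := f 0 + f 1 + f 2 + f 3 + f 4 + f 5 + f 6

def gd (x : ℤ) (y : ℤ) : ℤ := if x = 0 then 0 else x * y

/-- the sum over all maps `7 → 7`, nested -/
def total : ℤ :=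
  s7 fun x2 => s7 fun x4 => s7 fun x5 => s7 fun x6 =>
    gd (dn x2 x4 x5 x6) <|
    s7 fun x3 => s7 fun x0 =>
      gd (dn x3 x5 x6 x0) <|
    s7 fun x1 => gd (dn x4 x6 x0 x1) <| gd (dn x5 x0 x1 x2) <| gd (dn x6 x1 x2 x3) <|
      gd (dn x0 x2 x3 x4) <| dn x1 x3 x4 x5

set_option maxRecDepth 100000 in
theorem total_eq : total = -2016 := by decide +kernel

lemma gd_eq (x y : ℤ) : gd x y = x * y := by
  unfold gd; split_ifs with h
  · rw [h, zero_mul]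
  · rfl

lemma s7_eq (f : ℕ → ℤ) : s7 f = ∑ x : Fin 7, f x := by
  rw [Fin.sum_univ_seven]; rfl

/-- determinant of four of the vectors -/
def D (w : Fin 4 → Fin 7) : ℤ := Matrix.det (Matrix.of fun r k => av (w r) k)

lemma det4 (M : Matrix (Fin 4) (Fin 4) ℤ) : M.det =
  m2 (M 0 0) (M 0 1) (M 1 0) (M 1 1) * m2 (M 2 2) (M 2 3) (M 3 2) (M 3 3)
  - m2 (M 0 0) (M 0 2) (M 1 0) (M 1 2) * m2 (M 2 1) (M 2 3) (M 3 1) (M 3 3)
  + m2 (M 0 0) (M 0 3) (M 1 0) (M 1 3) * m2 (M 2 1) (M 2 2) (M 3 1) (M 3 2)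
  + m2 (M 0 1) (M 0 2) (M 1 1) (M 1 2) * m2 (M 2 0) (M 2 3) (M 3 0) (M 3 3)
  - m2 (M 0 1) (M 0 3) (M 1 1) (M 1 3) * m2 (M 2 0) (M 2 2) (M 3 0) (M 3 2)
  + m2 (M 0 2) (M 0 3) (M 1 2) (M 1 3) * m2 (M 2 0) (M 2 1) (M 3 0) (M 3 1) := by
  rw [Matrix.det_succ_row_zero]
  simp only [Fin.sum_univ_four, Matrix.det_fin_three, Matrix.submatrix_apply, m2]
  simp [Fin.succAbove, Fin.lt_def]
  ring

lemma av_an : ∀ (i : Fin 7) (k : Fin 4), av i k = an i k := by decide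

lemma D_eq (w : Fin 4 → Fin 7) : D w = dn (w 0) (w 1) (w 2) (w 3) := by
  rw [D, det4]
  simp only [Matrix.of_apply, av_an, dn]
  rfl

/-- the block product -/
def F (s : Fin 7 → Fin 7) : ℤ := ∏ B : Fin 7, D (fun r => s (B + sh r))

lemma blocks_cover : ∀ i i' : Fin 7, i ≠ i' →
    ∃ (B : Fin 7) (r r' : Fin 4), r ≠ r' ∧ B + sh r = i ∧ B + sh r' = i' := by
  decide

lemma F_noninj (s : Fin 7 → Fin 7) (hs : ¬ Function.Injective s) : F s = 0 := by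
  rw [Function.Injective] at hs
  push Not at hs
  obtain ⟨i, i', h, hne⟩ := hs
  obtain ⟨B, r, r', hr, h1, h2⟩ := blocks_cover i i' hne
  rw [F]
  apply Finset.prod_eq_zero (Finset.mem_univ B)
  rw [D]
  apply Matrix.det_zero_of_row_eq hr
  funext k
  simp only [Matrix.of_apply]
  rw [h1, h2, h]

lemma sum_perm : ∑ σ : Perm (Fin 7), F σ = ∑ s : Fin 7 → Fin 7, F s := by
  refine Fintype.sum_of_injective (fun (σ : Perm (Fin 7)) => (σ : Fin 7 → Fin 7))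
    DFunLike.coe_injective _ _ ?_ (fun _ => rfl)
  intro s hs
  apply F_noninj
  intro hinj
  apply hs
  exact ⟨Equiv.ofBijective s (Finite.injective_iff_bijective.mp hinj), rfl⟩

def qq : Fin 7 → Fin 7 := ![5, 6, 0, 4, 1, 2, 3]

lemma qq_bij : Function.Bijective qq := by decide

lemma sum_reindex : ∑ s : Fin 7 → Fin 7, F s = ∑ t : Fin 7 → Fin 7, F (t ∘ qq) := by
  rw [← Equiv.sum_comp (Equiv.arrowCongr (Equiv.ofBijective qq qq_bij).symm (Equiv.refl (Fin 7))) F]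
  rfl

lemma F_qq (t : Fin 7 → Fin 7) : F (t ∘ qq) =
    dn (t 0) (t 1) (t 2) (t 3) * dn (t 4) (t 2) (t 3) (t 5) * dn (t 1) (t 3) (t 5) (t 6) *
    dn (t 2) (t 5) (t 6) (t 0) * dn (t 3) (t 6) (t 0) (t 4) * dn (t 5) (t 0) (t 4) (t 1) *
    dn (t 6) (t 4) (t 1) (t 2) := by
  rw [F, Fin.prod_univ_seven]
  simp only [D_eq]
  rfl

lemma pi_sum (n : ℕ) (f : (Fin (n + 1) → Fin 7) → ℤ) :
    ∑ s, f s = ∑ x : Fin 7, ∑ s : Fin n → Fin 7, f (Fin.cons x s) := by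
  rw [← (Fin.consEquiv (fun _ : Fin (n + 1) => Fin 7)).sum_comp, Fintype.sum_prod_type]
  rfl

lemma sum_total : ∑ t : Fin 7 → Fin 7, F (t ∘ qq) = total := by
  simp only [F_qq]
  rw [pi_sum]
  simp only [pi_sum]
  rw [total]
  simp only [s7_eq, gd_eq, Finset.mul_sum, mul_assoc]
  refine Finset.sum_congr rfl fun x0 _ => Finset.sum_congr rfl fun x1 _ =>
    Finset.sum_congr rfl fun x2 _ => Finset.sum_congr rfl fun x3 _ =>
    Finset.sum_congr rfl fun x4 _ => Finset.sum_congr rfl fun x5 _ =>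
    Finset.sum_congr rfl fun x6 _ => ?_
  rw [Fintype.sum_unique]
  rfl

theorem perm_sum : ∑ σ : Perm (Fin 7), F σ = -2016 := by
  rw [sum_perm, sum_reindex, sum_total, total_eq]

end H628HHH
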