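import Mathlib

open Equiv Finset

namespace H628HHH

/-- `(V^{⊗ b})^{⊗ a}`: `a` blocks of `b` factors, as multilinear maps on `V^*`. The slot `(i, j)` is
the `j`-th factor of the `i`-th block. -/
abbrev Blocks (V : Type) [AddCommGroup V] [Module ℂ V] (a b : ℕ) : Type :=
  MultilinearMap ℂ (fun _ : Fin a × Fin b => Module.Dual ℂ V) ℂ

/-- the permutation `(i, j) ↦ (i, ρ i j)` of the slots: it permutes the factors inside each block -/
def inside {a b : ℕ} (ρ : Fin a → Perm (Fin b)) : Perm (Fin a × Fin b) :=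
  Equiv.prodShear (Equiv.refl _) ρ

/-- the permutation `(i, j) ↦ (σ i, j)` of the slots: it permutes the blocks -/
def outer {a b : ℕ} (σ : Perm (Fin a)) : Perm (Fin a × Fin b) :=
  Equiv.prodCongr σ (Equiv.refl _)

lemma inside_apply {a b : ℕ} (ρ : Fin a → Perm (Fin b)) (p : Fin a × Fin b) :
    inside ρ p = (p.1, ρ p.1 p.2) := rfl

lemma outer_apply {a b : ℕ} (σ : Perm (Fin a)) (p : Fin a × Fin b) :
    outer σ p = (σ p.1, p.2) := rfl

variable {V : Type} [AddCommGroup V] [Module ℂ V]

/-- rearranging the slots: `(slots e T)(v) = T(v ∘ e)` -/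
def slots {α β : Type} (e : α ≃ β) :
    MultilinearMap ℂ (fun _ : α => Module.Dual ℂ V) ℂ →ₗ[ℂ]
      MultilinearMap ℂ (fun _ : β => Module.Dual ℂ V) ℂ where
  toFun T := T.domDomCongr e
  map_add' _ _ := rfl
  map_smul' _ _ := rfl

lemma slots_apply {α β : Type} (e : α ≃ β)
    (T : MultilinearMap ℂ (fun _ : α => Module.Dual ℂ V) ℂ) (v : β → Module.Dual ℂ V) :
    slots e T v = T (fun p => v (e p)) := rfl

variable (V) in
/-- the subspace `S^a(S^b V)` of `(V^{⊗ b})^{⊗ a}`: tensors invariant under permutations of the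
factors inside each block and under permutations of the blocks -/
def SymSym (a b : ℕ) : Submodule ℂ (Blocks V a b) where
  carrier := {T | (∀ ρ : Fin a → Perm (Fin b), slots (inside ρ) T = T) ∧
    ∀ σ : Perm (Fin a), slots (outer σ) T = T}
  add_mem' := by
    rintro S T ⟨h1, h2⟩ ⟨h3, h4⟩
    exact ⟨fun ρ => by rw [map_add, h1, h3], fun σ => by rw [map_add, h2, h4]⟩
  zero_mem' := ⟨fun ρ => map_zero _, fun σ => map_zero _⟩
  smul_mem' := by
    rintro c T ⟨h1, h2⟩
    exact ⟨fun ρ => by rw [map_smul, h1], fun σ => by rw [map_smul, h2]⟩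

/-- the action of `g ∈ GL(V)` on `(V^{⊗ b})^{⊗ a}`: `(g T)(ℓ) = T(ℓ ∘ g)` -/
def act {a b : ℕ} (g : V ≃ₗ[ℂ] V) : Blocks V a b →ₗ[ℂ] Blocks V a b where
  toFun T := T.compLinearMap (fun _ => (g : V →ₗ[ℂ] V).dualMap)
  map_add' _ _ := rfl
  map_smul' _ _ := rfl

lemma act_apply {a b : ℕ} (g : V ≃ₗ[ℂ] V) (T : Blocks V a b) (v) :
    act g T v = T (fun p => (v p).comp (g : V →ₗ[ℂ] V)) := rfl

variable (V) in
/-- the `det^d`-isotypic component of `(V^{⊗ b})^{⊗ a}` -/
def DetPow (a b d : ℕ) : Submodule ℂ (Blocks V a b) where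
  carrier := {T | ∀ g : V ≃ₗ[ℂ] V, act g T = (LinearMap.det (g : V →ₗ[ℂ] V)) ^ d • T}
  add_mem' := by
    intro S T h1 h2 g
    rw [map_add, h1 g, h2 g, smul_add]
  zero_mem' := by
    intro g
    rw [map_zero, smul_zero]
  smul_mem' := by
    intro c T h1 g
    rw [map_smul, h1 g, smul_comm]

variable (V) in
/-- the `S_{(d^n)} V`-isotypic component of `S^d(S^n V)`, for `dim V = n`
(then `S_{(d^n)} V = det^d`) -/
def RectComponent (d n : ℕ) : Submodule ℂ (Blocks V d n) :=
  SymSym V d n ⊓ DetPow V d n d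

variable (V) in
/-- regroup `V^{⊗ nd} = (V^{⊗ d})^{⊗ n}`: the `i`-th new block collects the `i`-th factors of the
old blocks -/
def regroup (d n : ℕ) : Blocks V d n →ₗ[ℂ] Blocks V n d :=
  slots (Equiv.prodComm (Fin d) (Fin n))

variable (V) in
/-- symmetrization inside each block -/
noncomputable def symInside (a b : ℕ) : Blocks V a b →ₗ[ℂ] Blocks V a b :=
  (((b.factorial : ℂ) ^ a)⁻¹) • ∑ ρ : Fin a → Perm (Fin b), slots (inside ρ)

variable (V) in
/-- symmetrization over the blocks -/
noncomputable def symOuter (a b : ℕ) : Blocks V a b →ₗ[ℂ] Blocks V a b :=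
  ((a.factorial : ℂ)⁻¹) • ∑ σ : Perm (Fin a), slots (outer σ)

variable (V) in
/-- the Hermite-Hadamard-Howe map `h_{d,n}` -/
noncomputable def hhh (d n : ℕ) : Blocks V d n →ₗ[ℂ] Blocks V n d :=
  symOuter V n d ∘ₗ symInside V n d ∘ₗ regroup V d n

/-! ### the polarization lemma -/

lemma polar {W : Type} [AddCommGroup W] [Module ℂ W] {d n : ℕ}
    (T : MultilinearMap ℂ (fun _ : Fin d × Fin n => W) ℂ)
    (h0 : ∀ y : Fin n → W, T (fun p => y p.2) = 0) (ℓ : Fin d × Fin n → W) :
    ∑ ρ : Fin n → Perm (Fin d), T (fun p => ℓ (ρ p.2 p.1, p.2)) = 0 := by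
  classical
  set F : (Fin d × Fin n → Fin d) → ℂ := fun κ => T (fun p => ℓ (κ p, p.2)) with hF
  set e : (Fin d × Fin n → Fin d) → (Fin d × Fin n → Fin d × Fin n) :=
    fun κ p => (κ p, p.2) with he
  let P : MvPolynomial (Fin d × Fin n) ℂ :=
    ∑ κ : Fin d × Fin n → Fin d, MvPolynomial.C (F κ) * ∏ p, MvPolynomial.X (e κ p)
  have hP : P = 0 := by
    apply MvPolynomial.funext
    intro t
    have h1 := h0 (fun j => ∑ i : Fin d, t (i, j) • ℓ (i, j))
    rw [MultilinearMap.map_sum T (fun (p : Fin d × Fin n) (i : Fin d) =>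
      t (i, p.2) • ℓ (i, p.2))] at h1
    simp only [P, map_sum, map_mul, MvPolynomial.eval_C, map_prod, MvPolynomial.eval_X, map_zero]
    rw [← h1]
    refine Finset.sum_congr rfl fun κ _ => ?_
    rw [MultilinearMap.map_smul_univ T (fun p => t (κ p, p.2)) (fun p => ℓ (κ p, p.2))]
    simp only [smul_eq_mul, hF, he]
    ring
  set m0 : (Fin d × Fin n) →₀ ℕ := ∑ p, Finsupp.single p 1 with hm0
  have hc : MvPolynomial.coeff m0 P = ∑ κ : Fin d × Fin n → Fin d,
      if Function.Bijective (e κ) then F κ else 0 := by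
    simp only [P, MvPolynomial.coeff_sum]
    refine Finset.sum_congr rfl fun κ _ => ?_
    rw [MvPolynomial.coeff_C_mul]
    have h2 : (∏ p, MvPolynomial.X (e κ p) : MvPolynomial (Fin d × Fin n) ℂ) =
        MvPolynomial.monomial (∑ p, Finsupp.single (e κ p) 1) 1 := by
      rw [MvPolynomial.monomial_sum_one]
      rfl
    rw [h2, MvPolynomial.coeff_monomial]
    have h3 : (∑ p, Finsupp.single (e κ p) 1 : (Fin d × Fin n) →₀ ℕ) = m0 ↔
        Function.Bijective (e κ) := by
      constructor
      · intro h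
        rw [← Finite.surjective_iff_bijective]
        intro q
        by_contra hq
        push Not at hq
        have h4 := DFunLike.congr_fun h q
        rw [hm0, Finsupp.finsetSum_apply, Finsupp.finsetSum_apply] at h4
        rw [Finset.sum_eq_zero (fun p _ => Finsupp.single_eq_of_ne (hq p).symm),
          Finset.sum_eq_single q (fun b _ hb => Finsupp.single_eq_of_ne hb.symm)
          (fun hh => absurd (Finset.mem_univ q) hh)] at h4
        simp at h4
      · intro h
        exact (Equiv.ofBijective _ h).sum_comp (fun p => (Finsupp.single p 1 : (Fin d × Fin n) →₀ ℕ))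
    by_cases hb : Function.Bijective (e κ)
    · rw [if_pos (h3.mpr hb), if_pos hb, mul_one]
    · rw [if_neg (fun hh => hb (h3.mp hh)), if_neg hb, mul_zero]
  rw [hP, MvPolynomial.coeff_zero] at hc
  rw [hc]
  refine Fintype.sum_of_injective (fun (ρ : Fin n → Perm (Fin d)) (p : Fin d × Fin n) => ρ p.2 p.1)
    ?_ _ _ ?_ ?_
  · intro ρ ρ' h
    funext j
    ext i
    have := congrFun h (i, j)
    exact congrArg Fin.val this
  · intro κ hκ
    rw [if_neg]
    intro hb
    apply hκ
    have hj : ∀ j : Fin n, Function.Bijective (fun i => κ (i, j)) := by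
      intro j
      rw [← Finite.injective_iff_bijective]
      intro i i' hi
      have h5 : e κ (i, j) = e κ (i', j) := by
        simp only [he]
        rw [show κ (i, j) = κ (i', j) from hi]
      exact congrArg Prod.fst (hb.1 h5)
    refine ⟨fun j => Equiv.ofBijective _ (hj j), ?_⟩
    funext p
    rfl
  · intro ρ
    rw [if_pos]
    rw [← Finite.injective_iff_bijective]
    intro p q hpq
    simp only [he, Prod.mk.injEq] at hpq
    obtain ⟨h6, h7⟩ := hpq
    rw [h7] at h6
    exact Prod.ext ((ρ q.2).injective h6) h7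


/-! ### `det^d`-semi-invariants with `d` odd vanish on products of linear forms -/

/-- the value at the rows `(y_1, …, y_n)`, repeated `d` times -/
lemma detPow_diag {d n : ℕ} {T : Blocks V d n} (hT : T ∈ DetPow V d n d) (g : V ≃ₗ[ℂ] V)
    (y : Fin n → Module.Dual ℂ V) :
    T (fun p => (y p.2).comp (g : V →ₗ[ℂ] V)) =
      (LinearMap.det (g : V →ₗ[ℂ] V)) ^ d * T (fun p => y p.2) := by
  have h := hT g
  have h2 := congrArg (fun S : Blocks V d n => S (fun p => y p.2)) h
  simpa [act_apply] using h2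

lemma basis_val_zero {d n : ℕ} (hn : 2 ≤ n) (hd : Odd d) (b : Module.Basis (Fin n) ℂ V)
    {T : Blocks V d n} (hS : T ∈ SymSym V d n) (hT : T ∈ DetPow V d n d) :
    T (fun p => b.coord p.2) = 0 := by
  classical
  let s : Perm (Fin n) := Equiv.swap ⟨0, by omega⟩ ⟨1, by omega⟩
  have hs : Perm.sign s = -1 := Perm.sign_swap (by simp [Fin.ext_iff])
  let g : V ≃ₗ[ℂ] V := b.equiv b s
  have hdet : LinearMap.det (g : V →ₗ[ℂ] V) = -1 := by
    rw [← LinearMap.det_toMatrix b]
    have : LinearMap.toMatrix b b (g : V →ₗ[ℂ] V) = (Perm.permMatrix ℂ s⁻¹) := by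
      ext i j
      rw [LinearMap.toMatrix_apply, Perm.permMatrix, PEquiv.toMatrix_apply]
      simp only [g, LinearEquiv.coe_coe, Module.Basis.equiv_apply, Module.Basis.repr_self,
        Finsupp.single_apply, Equiv.toPEquiv_apply, Option.mem_def, Option.some.injEq,
        Perm.inv_eq_iff_eq]
      simp only [eq_comm]
    rw [this, Matrix.det_permutation]
    simp [hs]
  have h1 := detPow_diag hT g (fun j => b.coord j)
  have h2 : (fun p : Fin d × Fin n => (b.coord p.2).comp (g : V →ₗ[ℂ] V)) =
      fun p => b.coord (s p.2) := by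
    funext p
    apply b.ext
    intro i
    have hss : s (s p.2) = p.2 := Equiv.swap_apply_self _ _ _
    simp only [g, LinearMap.comp_apply, LinearEquiv.coe_coe, Module.Basis.equiv_apply,
      Module.Basis.coord_apply, Module.Basis.repr_self, Finsupp.single_apply]
    by_cases h : s i = p.2
    · rw [if_pos h, if_pos (by rw [← h]; exact (Equiv.swap_apply_self _ _ _).symm)]
    · rw [if_neg h, if_neg (fun h' => h (by rw [h', hss]))]
  rw [h2, hdet, hd.neg_one_pow] at h1
  have h3 : T (fun p => b.coord (s p.2)) = T (fun p => b.coord p.2) := by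
    have := congrArg (fun S : Blocks V d n => S (fun p => b.coord p.2)) (hS.1 (fun _ => s))
    simpa [slots_apply, inside_apply] using this
  rw [h3] at h1
  have : (2 : ℂ) * T (fun p => b.coord p.2) = 0 := by linear_combination h1
  simpa using this


lemma diag_zero {d n : ℕ} (hn : 2 ≤ n) (hd : Odd d) (b : Module.Basis (Fin n) ℂ V)
    {T : Blocks V d n} (hS : T ∈ SymSym V d n) (hT : T ∈ DetPow V d n d)
    (y : Fin n → Module.Dual ℂ V) : T (fun p => y p.2) = 0 := by
  classical
  set Y : Fin d × Fin n → Module.Dual ℂ V := fun p => y p.2 with hY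
  set B : Fin d × Fin n → Module.Dual ℂ V := fun p => b.coord p.2 with hB
  let P : Polynomial ℂ :=
    ∑ s : Finset (Fin d × Fin n), Polynomial.C (T (s.piecewise B Y)) * Polynomial.X ^ s.card
  have hP : ∀ t : ℂ, P.eval t = T (fun p => t • b.coord p.2 + y p.2) := by
    intro t
    have h1 := MultilinearMap.map_add_univ T (fun p => t • B p) Y
    have h2 : (fun p => t • b.coord p.2 + y p.2 : Fin d × Fin n → Module.Dual ℂ V) =
      (fun p => t • B p) + Y := rfl
    rw [h2, h1]
    simp only [P, Polynomial.eval_finsetSum, Polynomial.eval_mul, Polynomial.eval_C,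
      Polynomial.eval_pow, Polynomial.eval_X]
    refine Finset.sum_congr rfl fun s _ => ?_
    have h3 := MultilinearMap.map_piecewise_smul T (fun _ => t) (s.piecewise B Y) s
    have h4 : s.piecewise (fun i => t • s.piecewise B Y i) (s.piecewise B Y) =
        s.piecewise (fun p => t • B p) Y := by
      funext p
      by_cases hp : p ∈ s
      · simp [Finset.piecewise, hp]
      · simp [Finset.piecewise, hp]
    rw [h4, Finset.prod_const] at h3
    rw [h3, smul_eq_mul, mul_comm]
  let A : Matrix (Fin n) (Fin n) ℂ := fun j i => y j (b i)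
  have hA : ∀ t : ℂ, (-A).charpoly.eval t ≠ 0 → P.eval t = 0 := by
    intro t ht
    rw [Matrix.eval_charpoly] at ht
    set G : Matrix (Fin n) (Fin n) ℂ := Matrix.scalar (Fin n) t - -A with hG
    let g : V ≃ₗ[ℂ] V := Matrix.toLinearEquiv b G (isUnit_iff_ne_zero.mpr ht)
    rw [hP]
    have h5 := detPow_diag hT g (fun j => b.coord j)
    rw [basis_val_zero hn hd b hS hT, mul_zero] at h5
    rw [← h5]
    congr 1
    funext p
    apply b.ext
    intro i
    have h6 : (g : V →ₗ[ℂ] V) = Matrix.toLin b b G := rfl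
    rw [h6, LinearMap.comp_apply, Matrix.toLin_self, map_sum]
    rw [Finset.sum_eq_single p.2]
    · have hGa : G p.2 i = (if p.2 = i then t else 0) + y p.2 (b i) := by
        have e1 : G p.2 i = (Matrix.scalar (Fin n) t) p.2 i - -(y p.2 (b i)) := rfl
        rw [e1, Matrix.scalar_apply, Matrix.diagonal_apply, sub_neg_eq_add]
      rw [map_smul, hGa, Module.Basis.coord_apply, Module.Basis.repr_self, Finsupp.single_eq_same,
        smul_eq_mul, mul_one, LinearMap.add_apply, LinearMap.smul_apply, Module.Basis.coord_apply,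
        Module.Basis.repr_self, Finsupp.single_apply, smul_eq_mul]
      by_cases h : i = p.2
      · rw [if_pos h, if_pos h.symm, mul_one]
      · rw [if_neg h, if_neg (Ne.symm h), mul_zero]
    · intro c _ hc
      simp [hc]
    · simp
  have hinf : Set.Infinite {t : ℂ | P.IsRoot t} := by
    have hfin : {t : ℂ | (-A).charpoly.IsRoot t}.Finite :=
      Polynomial.finite_setOfPred_isRoot (Matrix.charpoly_monic _).ne_zero
    have := hfin.infinite_compl
    refine this.mono ?_
    intro t ht
    exact hA t ht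
  have hP0 : P = 0 := Polynomial.eq_zero_of_infinite_isRoot P hinf
  have h7 := hP 0
  rw [hP0, Polynomial.eval_zero] at h7
  simp only [zero_smul, zero_add] at h7
  exact h7.symm

/-- part (b): for `d` odd and `n ≥ 2`, the Hermite-Hadamard-Howe map vanishes on the
`S_{(d^n)} V`-isotypic component of `S^d(S^n V)`, `dim V = n` -/
theorem rect_le_ker {d n : ℕ} (hn : 2 ≤ n) (hd : Odd d) [FiniteDimensional ℂ V]
    (hV : Module.finrank ℂ V = n) : RectComponent V d n ≤ LinearMap.ker (hhh V d n) := by
  classical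
  rintro T ⟨hS, hT⟩
  let b : Module.Basis (Fin n) ℂ V := Module.finBasisOfFinrankEq ℂ V hV
  rw [LinearMap.mem_ker]
  have h1 : symInside V n d (regroup V d n T) = 0 := by
    ext v
    have h2 := polar T (fun y => diag_zero hn hd b hS hT y) (fun p => v (p.2, p.1))
    simp only [symInside, regroup, LinearMap.smul_apply, LinearMap.sum_apply,
      smul_apply, _root_.sum_apply, slots_apply, inside_apply,
      Equiv.prodComm_apply, Prod.swap]
    rw [h2, smul_zero]
    rfl
  rw [hhh, LinearMap.comp_apply, LinearMap.comp_apply, h1, map_zero]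

end H628HHH
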