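import Mathlib
import Pool.Agent.H628R4.HHH
import Pool.Agent.H628R4.Eval

open Finset Equiv

namespace H628HHH

variable {V : Type} [AddCommGroup V] [Module ℂ V]

/-- the bracket `[v_1 v_2 v_3 v_4]` -/
noncomputable def br (b : Module.Basis (Fin 4) ℂ V) (v : Fin 4 → Module.Dual ℂ V) : ℂ :=
  Matrix.det (Matrix.of fun r k => v r (b k))

def slotOf (B : Fin 7) (r : Fin 4) : Fin 7 × Fin 4 := (B + sh r, r)

lemma br_update [inst : DecidableEq (Fin 4)] (b : Module.Basis (Fin 4) ℂ V)
    (w : Fin 4 → Module.Dual ℂ V) (r : Fin 4)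
    (x : Module.Dual ℂ V) : br b (Function.update w r x) =
      Matrix.det (Matrix.updateRow (Matrix.of fun r' k => w r' (b k)) r (fun k => x (b k))) := by
  rw [br]
  congr 1
  ext r' k
  by_cases h : r' = r
  · subst h; simp
  · simp [h]

lemma br_add (b : Module.Basis (Fin 4) ℂ V)
    (w : Fin 4 → Module.Dual ℂ V) (r : Fin 4) (x y : Module.Dual ℂ V) :
    br b (Function.update w r (x + y)) =
      br b (Function.update w r x) + br b (Function.update w r y) := by
  rw [br_update, br_update, br_update, ← Matrix.det_updateRow_add]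
  rfl

lemma br_smul (b : Module.Basis (Fin 4) ℂ V)
    (w : Fin 4 → Module.Dual ℂ V) (r : Fin 4) (c : ℂ) (x : Module.Dual ℂ V) :
    br b (Function.update w r (c • x)) = c * br b (Function.update w r x) := by
  rw [br_update, br_update, ← Matrix.det_updateRow_smul]
  rfl

lemma prod_update [inst : DecidableEq (Fin 7 × Fin 4)] (b : Module.Basis (Fin 4) ℂ V)
    (l : Fin 7 × Fin 4 → Module.Dual ℂ V)
    (p : Fin 7 × Fin 4) (x : Module.Dual ℂ V) :
    ∏ B : Fin 7, br b (fun r => Function.update l p x (slotOf B r)) =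
      br b (Function.update (fun r => l (slotOf (p.1 - sh p.2) r)) p.2 x) *
        ∏ B ∈ Finset.univ.erase (p.1 - sh p.2), br b (fun r => l (slotOf B r)) := by
  rw [← Finset.mul_prod_erase Finset.univ _ (Finset.mem_univ (p.1 - sh p.2))]
  congr 1
  · congr 1
    funext r
    by_cases h : r = p.2
    · subst h
      have : slotOf (p.1 - sh p.2) p.2 = p := by
        simp [slotOf]
      rw [this]
      simp
    · have : slotOf (p.1 - sh p.2) r ≠ p := by
        intro h'
        exact h (congrArg Prod.snd h')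
      simp [h, this]
  · refine Finset.prod_congr rfl fun B hB => ?_
    congr 1
    funext r
    have : slotOf B r ≠ p := by
      intro h'
      apply Finset.ne_of_mem_erase hB
      have h1 : r = p.2 := congrArg Prod.snd h'
      have h2 : B + sh r = p.1 := congrArg Prod.fst h'
      rw [← h2, ← h1]
      simp
    simp [this]

/-- the product of the seven brackets -/
noncomputable def T0 (b : Module.Basis (Fin 4) ℂ V) : Blocks V 7 4 where
  toFun l := ∏ B : Fin 7, br b (fun r => l (slotOf B r))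
  map_update_add' l p x y := by
    rw [prod_update, prod_update, prod_update, br_add, add_mul]
  map_update_smul' l p c x := by
    rw [prod_update, prod_update, br_smul, smul_eq_mul, mul_assoc]

lemma T0_apply (b : Module.Basis (Fin 4) ℂ V) (l : Fin 7 × Fin 4 → Module.Dual ℂ V) :
    T0 b l = ∏ B : Fin 7, br b (fun r => l (slotOf B r)) := rfl

/-- the sum of the rearrangements of `T` over the wreath product -/
noncomputable def wreathSum {a c : ℕ} (T : Blocks V a c) : Blocks V a c :=
  ∑ σ : Perm (Fin a), ∑ ρ : Fin a → Perm (Fin c), slots (outer σ) (slots (inside ρ) T)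

lemma wreathSum_mem_symSym {a c : ℕ} (T : Blocks V a c) : wreathSum T ∈ SymSym V a c := by
  refine ⟨fun ρ₀ => ?_, fun σ₀ => ?_⟩
  · rw [wreathSum, map_sum]
    refine Finset.sum_congr rfl fun σ _ => ?_
    rw [map_sum]
    rw [← Equiv.sum_comp (Equiv.mulLeft (fun i => ρ₀ (σ i)))
      (fun ρ => slots (outer σ) (slots (inside ρ) T))]
    rfl
  · rw [wreathSum, map_sum]
    rw [← Equiv.sum_comp (Equiv.mulLeft σ₀)
      (fun σ => ∑ ρ : Fin a → Perm (Fin c), slots (outer σ) (slots (inside ρ) T))]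
    refine Finset.sum_congr rfl fun σ _ => ?_
    rw [map_sum]
    rfl

lemma act_slots {a c : ℕ} (e : Perm (Fin a × Fin c)) (g : V ≃ₗ[ℂ] V) (T : Blocks V a c) :
    act g (slots e T) = slots e (act g T) := rfl

lemma slots_mem_detPow {a c d : ℕ} (e : Perm (Fin a × Fin c)) {T : Blocks V a c}
    (hT : T ∈ DetPow V a c d) : slots e T ∈ DetPow V a c d := by
  intro g
  rw [act_slots, hT g, map_smul]

lemma wreathSum_mem_detPow {a c d : ℕ} {T : Blocks V a c} (hT : T ∈ DetPow V a c d) :
    wreathSum T ∈ DetPow V a c d :=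
  Submodule.sum_mem _ fun _ _ => Submodule.sum_mem _ fun _ _ =>
    slots_mem_detPow _ (slots_mem_detPow _ hT)

lemma wreathSum_rows {a c : ℕ} (T : Blocks V a c) (α : Fin a → Module.Dual ℂ V) :
    wreathSum T (fun p => α p.1) =
      (Fintype.card (Fin a → Perm (Fin c)) : ℂ) * ∑ σ : Perm (Fin a), T (fun p => α (σ p.1)) := by
  rw [wreathSum, _root_.sum_apply, Finset.mul_sum]
  refine Finset.sum_congr rfl fun σ _ => ?_
  rw [_root_.sum_apply]
  have h : ∀ ρ : Fin a → Perm (Fin c),
      slots (outer σ) (slots (inside ρ) T) (fun p => α p.1) = T (fun p => α (σ p.1)) :=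
    fun ρ => rfl
  rw [Finset.sum_congr rfl (fun ρ _ => h ρ), Finset.sum_const, nsmul_eq_mul, Finset.card_univ]

lemma br_comp (b : Module.Basis (Fin 4) ℂ V) (g : V →ₗ[ℂ] V) (v : Fin 4 → Module.Dual ℂ V) :
    br b (fun r => (v r).comp g) = br b v * LinearMap.det g := by
  rw [br, br, ← LinearMap.det_toMatrix b g, ← Matrix.det_mul]
  congr 1
  ext r k
  rw [Matrix.of_apply, Matrix.mul_apply, LinearMap.comp_apply]
  conv_lhs => rw [← b.sum_repr (g (b k)), map_sum]
  refine Finset.sum_congr rfl fun j _ => ?_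
  rw [map_smul, Matrix.of_apply, LinearMap.toMatrix_apply, smul_eq_mul, mul_comm]

lemma act_T0 (b : Module.Basis (Fin 4) ℂ V) (g : V ≃ₗ[ℂ] V) :
    act g (T0 b) = (LinearMap.det (g : V →ₗ[ℂ] V)) ^ 7 • T0 b := by
  ext l
  rw [act_apply, T0_apply, smul_apply, T0_apply]
  rw [Finset.prod_congr rfl (fun B _ => br_comp b (g : V →ₗ[ℂ] V) (fun r => l (slotOf B r)))]
  rw [Finset.prod_mul_distrib, Finset.prod_const, Finset.card_univ, Fintype.card_fin, smul_eq_mul,
    mul_comm]

lemma T0_rows (b : Module.Basis (Fin 4) ℂ V) (s : Fin 7 → Fin 7) :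
    T0 b (fun p => ∑ k, (av (s p.1) k : ℂ) • b.coord k) = ((F s : ℤ) : ℂ) := by
  have hα : ∀ (i : Fin 7) (k : Fin 4),
      (∑ k, (av i k : ℂ) • b.coord k : Module.Dual ℂ V) (b k) = (av i k : ℂ) := by
    intro i k
    simp only [LinearMap.sum_apply, LinearMap.smul_apply, Module.Basis.coord_apply,
      Module.Basis.repr_self, Finsupp.single_apply, smul_eq_mul, mul_ite, mul_one, mul_zero]
    simp
  rw [T0_apply, F, Int.cast_prod]
  refine Finset.prod_congr rfl fun B _ => ?_
  rw [br, D, Int.cast_det]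
  congr 1
  ext r k
  simp only [Matrix.of_apply, slotOf, hα]
  simp

lemma wreathSum_ne_zero {a c : ℕ} (T : Blocks V a c) (α : Fin a → Module.Dual ℂ V)
    (h : ∑ σ : Perm (Fin a), T (fun p => α (σ p.1)) ≠ 0) : wreathSum T ≠ 0 := by
  intro h0
  have h1 := wreathSum_rows T α
  rw [h0, zero_apply] at h1
  have h2 : (Fintype.card (Fin a → Perm (Fin c)) : ℂ) ≠ 0 :=
    Nat.cast_ne_zero.mpr Fintype.card_ne_zero
  exact mul_ne_zero h2 h h1.symm

lemma sum_T0_rows (b : Module.Basis (Fin 4) ℂ V) :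
    ∑ σ : Perm (Fin 7), T0 b (fun p => ∑ k, (av (σ p.1) k : ℂ) • b.coord k) =
      ((∑ σ : Perm (Fin 7), F σ : ℤ) : ℂ) := by
  rw [Int.cast_sum]
  exact Finset.sum_congr rfl fun σ _ => T0_rows b σ

lemma cast_ne : ((-2016 : ℤ) : ℂ) ≠ 0 := by norm_num

lemma TT_ne_zero (b : Module.Basis (Fin 4) ℂ V) : wreathSum (T0 b) ≠ 0 := by
  apply wreathSum_ne_zero (T0 b) (fun i => ∑ k, (av i k : ℂ) • b.coord k)
  rw [sum_T0_rows, perm_sum]
  exact cast_ne

/-- `S_{(7^4)} V = det^7` occurs in `S^7(S^4 V)` when `dim V = 4` -/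
theorem occurs [FiniteDimensional ℂ V] (hV : Module.finrank ℂ V = 4) :
    RectComponent V 7 4 ≠ ⊥ := by
  let b : Module.Basis (Fin 4) ℂ V := Module.finBasisOfFinrankEq ℂ V hV
  intro h
  have h1 : wreathSum (T0 b) ∈ RectComponent V 7 4 :=
    ⟨wreathSum_mem_symSym _, wreathSum_mem_detPow (fun g => act_T0 b g)⟩
  rw [h, Submodule.mem_bot] at h1
  exact TT_ne_zero b h1

end H628HHH
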